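import Mathlib
import Pool.Agent.U209.BX.Stm

/-!
# Project BX, package PATH: concatenation of the stages to an infinite path

`t_PATH : S_STAGE → S_PATH`.
-/

set_option autoImplicit false

namespace Pool.Agent.U928.BX.PATH

open Pool.Agent.U209.BX Finset Complex ComplexConjugate

/-! ## Concatenation of infinitely many finite chains -/

/-- the stage and the index in the stage of the `j`-th point -/
def st (L : ℕ → ℕ) : ℕ → ℕ × ℕ
  | 0 => (0, 0)
  | j + 1 => if (st L j).2 + 1 < L (st L j).1 then ((st L j).1, (st L j).2 + 1)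
      else ((st L j).1 + 1, 0)

theorem st_lt (L : ℕ → ℕ) (hL : ∀ n, 0 < L n) (j : ℕ) : (st L j).2 < L (st L j).1 := by
  induction j with
  | zero => simpa [st] using hL 0
  | succ j ih =>
    by_cases h : (st L j).2 + 1 < L (st L j).1
    · simp only [st, if_pos h]; exact h
    · simp only [st, if_neg h]; exact hL _

/-- the concatenated path -/
def cat (Z : ℕ → ℕ → ℂ) (L : ℕ → ℕ) (j : ℕ) : ℂ := Z (st L j).1 (st L j).2

theorem cat_succ (Z : ℕ → ℕ → ℂ) (L : ℕ → ℕ) (hL : ∀ n, 0 < L n)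
    (hZ : ∀ n, Z n (L n) = Z (n + 1) 0) (j : ℕ) :
    cat Z L (j + 1) = Z (st L j).1 ((st L j).2 + 1) := by
  by_cases h : (st L j).2 + 1 < L (st L j).1
  · simp only [cat, st, if_pos h]
  · simp only [cat, st, if_neg h]
    have h1 := st_lt L hL j
    have h2 : (st L j).2 + 1 = L (st L j).1 := by omega
    rw [h2, hZ]

theorem sum_cat {M : Type*} [AddCommMonoid M] (f : ℂ → ℂ → M) (Z : ℕ → ℕ → ℂ) (L : ℕ → ℕ)
    (hL : ∀ n, 0 < L n) (hZ : ∀ n, Z n (L n) = Z (n + 1) 0) (J : ℕ) :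
    ∑ j ∈ range J, f (cat Z L j) (cat Z L (j + 1)) =
      ∑ m ∈ range (st L J).1, (∑ i ∈ range (L m), f (Z m i) (Z m (i + 1))) +
        ∑ i ∈ range (st L J).2, f (Z (st L J).1 i) (Z (st L J).1 (i + 1)) := by
  induction J with
  | zero => simp [st]
  | succ J ih =>
    rw [sum_range_succ, ih, cat_succ Z L hL hZ]
    by_cases h : (st L J).2 + 1 < L (st L J).1
    · simp only [cat, st, if_pos h]
      rw [sum_range_succ, add_assoc]
    · have h1 := st_lt L hL J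
      have h2 : (st L J).2 + 1 = L (st L J).1 := by omega
      simp only [cat, st, if_neg h, range_zero, sum_empty, add_zero]
      rw [sum_range_succ _ (st L J).1, ← h2, sum_range_succ _ (st L J).2, add_assoc]

theorem st_stage (L : ℕ → ℕ) (hL : ∀ n, 0 < L n) (n : ℕ) : ∃ j, st L j = (n, 0) := by
  induction n with
  | zero => exact ⟨0, rfl⟩
  | succ n ih =>
    obtain ⟨j, hj⟩ := ih
    have key : ∀ i, i < L n → st L (j + i) = (n, i) := by
      intro i
      induction i with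
      | zero => intro _; simpa using hj
      | succ i ih2 =>
        intro hi
        have h3 := ih2 (by omega)
        rw [← add_assoc]
        simp only [st, h3]
        rw [if_pos hi]
    have h4 := key (L n - 1) (by have := hL n; omega)
    refine ⟨j + (L n - 1) + 1, ?_⟩
    simp only [st, h4]
    rw [if_neg (by have := hL n; omega)]

/-! ## The large steps -/

theorem norm_ex (θ : ℝ) : ‖ex θ‖ = 1 := by
  rw [ex, Complex.norm_exp_ofReal_mul_I]

theorem norm_W (n : ℕ) : ‖W n‖ = (n : ℝ) + 5 := by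
  rw [W, norm_mul, norm_ex, mul_one]
  have : ((n : ℂ) + 5) = (((n : ℝ) + 5 : ℝ) : ℂ) := by push_cast; ring
  rw [this, Complex.norm_real, Real.norm_of_nonneg (by positivity)]

theorem W_ne (n : ℕ) : W n ≠ 0 := by
  rw [← norm_pos_iff, norm_W]; positivity

theorem conj_ex (θ : ℝ) : conj (ex θ) = (ex θ)⁻¹ := by
  rw [ex, ← Complex.exp_conj, ← Complex.exp_neg]
  congr 1
  simp

theorem ex_three (n : ℕ) : ex (Real.pi * n / 3) ^ 3 = (-1) ^ n := by
  rw [ex, ← Complex.exp_nat_mul]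
  have : ((3 : ℕ) : ℂ) * (((Real.pi * n / 3 : ℝ) : ℂ) * I) = n * (Real.pi * I) := by
    push_cast; ring
  rw [this, Complex.exp_nat_mul, Complex.exp_pi_mul_I]

theorem step_eq (n : ℕ) : (W' n)⁻¹ - (W n)⁻¹ = -(W n)⁻¹ / (((n : ℂ) + 5) ^ 2 + 1) := by
  have h1 : ((n : ℂ) + 5) ≠ 0 := by
    have : ((n : ℂ) + 5) = (((n : ℝ) + 5 : ℝ) : ℂ) := by push_cast; ring
    rw [this, Ne, Complex.ofReal_eq_zero]; positivity
  have h2 : ((n : ℂ) + 5) ^ 2 + 1 ≠ 0 := by
    have : ((n : ℂ) + 5) ^ 2 + 1 = ((((n : ℝ) + 5) ^ 2 + 1 : ℝ) : ℂ) := by push_cast; ring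
    rw [this, Ne, Complex.ofReal_eq_zero]; positivity
  have h3 : (1 + 1 / ((n : ℂ) + 5) ^ 2) ≠ 0 := by
    have : (1 + 1 / ((n : ℂ) + 5) ^ 2) = (((n : ℂ) + 5) ^ 2 + 1) / ((n : ℂ) + 5) ^ 2 := by
      field_simp
    rw [this]
    exact div_ne_zero h2 (pow_ne_zero 2 h1)
  have h4 := W_ne n
  have h5 : (W' n)⁻¹ = (W n)⁻¹ * (((n : ℂ) + 5) ^ 2 / (((n : ℂ) + 5) ^ 2 + 1)) := by
    rw [W', mul_inv]
    congr 1
    rw [inv_eq_iff_eq_inv, inv_div]
    field_simp
  rw [h5]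
  field_simp
  ring

theorem W'_ne (n : ℕ) : W' n ≠ 0 := by
  intro h
  have h1 := step_eq n
  rw [h, inv_zero, zero_sub] at h1
  have h2 : ((n : ℂ) + 5) ^ 2 + 1 ≠ 0 := by
    have : ((n : ℂ) + 5) ^ 2 + 1 = ((((n : ℝ) + 5) ^ 2 + 1 : ℝ) : ℂ) := by push_cast; ring
    rw [this, Ne, Complex.ofReal_eq_zero]; positivity
  rw [eq_div_iff h2] at h1
  have h3 : (W n)⁻¹ ≠ 0 := inv_ne_zero (W_ne n)
  have h4 : (W n)⁻¹ * ((n : ℂ) + 5) ^ 2 = 0 := by linear_combination (-1 : ℂ) * h1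
  rcases mul_eq_zero.1 h4 with h5 | h5
  · exact h3 h5
  · have h6 : ((n : ℂ) + 5) = 0 := by simpa using h5
    have : ((n : ℂ) + 5) = (((n : ℝ) + 5 : ℝ) : ℂ) := by push_cast; ring
    rw [this, Complex.ofReal_eq_zero] at h6
    have : (0 : ℝ) < (n : ℝ) + 5 := by positivity
    linarith

theorem norm_step (n : ℕ) :
    ‖(W' n)⁻¹ - (W n)⁻¹‖ = ((n : ℝ) + 5)⁻¹ / (((n : ℝ) + 5) ^ 2 + 1) := by
  rw [step_eq, norm_div, norm_neg, norm_inv, norm_W]
  congr 1
  have : ((n : ℂ) + 5) ^ 2 + 1 = ((((n : ℝ) + 5) ^ 2 + 1 : ℝ) : ℂ) := by push_cast; ring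
  rw [this, Complex.norm_real, Real.norm_of_nonneg (by positivity)]

theorem term_eq (n : ℕ) : conj ((W n)⁻¹) / ((W n)⁻¹) ^ 3 * ((W' n)⁻¹ - (W n)⁻¹) =
    -(-1) ^ n * (((n : ℂ) + 5) / (((n : ℂ) + 5) ^ 2 + 1)) := by
  have h1 : ((n : ℂ) + 5) ≠ 0 := by
    have : ((n : ℂ) + 5) = (((n : ℝ) + 5 : ℝ) : ℂ) := by push_cast; ring
    rw [this, Ne, Complex.ofReal_eq_zero]; positivity
  have h2 : ((n : ℂ) + 5) ^ 2 + 1 ≠ 0 := by
    have : ((n : ℂ) + 5) ^ 2 + 1 = ((((n : ℝ) + 5) ^ 2 + 1 : ℝ) : ℂ) := by push_cast; ring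
    rw [this, Ne, Complex.ofReal_eq_zero]; positivity
  have he : ex (Real.pi * n / 3) ≠ 0 := by
    rw [← norm_pos_iff, norm_ex]; exact one_pos
  have hc : conj (W n) = ((n : ℂ) + 5) * (ex (Real.pi * n / 3))⁻¹ := by
    rw [W, map_mul, conj_ex]
    congr 1
    rw [map_add, map_natCast, map_ofNat]
  rw [step_eq, map_inv₀, hc, ← ex_three, W]
  field_simp

/-! ## Numerical bounds -/

theorem tele (N : ℕ) : ∑ n ∈ range N, (1 / (((n : ℝ) + 4) * ((n : ℝ) + 5))) =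
    1 / 4 - 1 / ((N : ℝ) + 4) := by
  induction N with
  | zero => simp
  | succ N ih =>
    rw [sum_range_succ, ih]
    push_cast
    have h1 : (N : ℝ) + 4 ≠ 0 := by positivity
    have h2 : (N : ℝ) + 5 ≠ 0 := by positivity
    have h3 : (N : ℝ) + 1 + 4 ≠ 0 := by positivity
    field_simp
    ring

theorem geo (N : ℕ) : ∑ n ∈ range N, ((1 / 2 : ℝ) ^ (n + 1)) = 1 - (1 / 2 : ℝ) ^ N := by
  induction N with
  | zero => simp
  | succ N ih => rw [sum_range_succ, ih]; ring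

theorem alt (N : ℕ) : ∑ n ∈ range N, (-(-1 : ℂ) ^ n) = 0 ∨
    ∑ n ∈ range N, (-(-1 : ℂ) ^ n) = -1 := by
  have key : ∑ n ∈ range N, (-(-1 : ℂ) ^ n) = ((-1) ^ N - 1) / 2 := by
    induction N with
    | zero => simp
    | succ N ih => rw [sum_range_succ, ih]; ring
  rw [key]
  rcases neg_one_pow_eq_or ℂ N with h | h
  · left; rw [h]; ring
  · right; rw [h]; ring

theorem small1 (n : ℕ) : 1 / (((n : ℝ) + 5) * (((n : ℝ) + 5) ^ 2 + 1)) ≤
    1 / (((n : ℝ) + 4) * ((n : ℝ) + 5)) := by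
  have h0 : (0 : ℝ) ≤ n := Nat.cast_nonneg n
  apply one_div_le_one_div_of_le (by positivity)
  nlinarith [mul_nonneg h0 h0, mul_nonneg (mul_nonneg h0 h0) h0]

theorem small2 (n : ℕ) : (((n : ℝ) + 5)) / ((((n : ℝ) + 5) ^ 2 + 1)) ^ 2 ≤
    1 / (((n : ℝ) + 4) * ((n : ℝ) + 5)) := by
  have h0 : (0 : ℝ) ≤ n := Nat.cast_nonneg n
  rw [div_le_div_iff₀ (by positivity) (by positivity)]
  nlinarith [mul_nonneg h0 h0, mul_nonneg (mul_nonneg h0 h0) h0,
    mul_nonneg (mul_nonneg h0 h0) (mul_nonneg h0 h0)]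

theorem mu_eq (n : ℕ) : -(-1 : ℂ) ^ n * (((n : ℂ) + 5) / (((n : ℂ) + 5) ^ 2 + 1)) +
      -(-1) ^ n * (1 - 1 / ((n : ℂ) + 5)) =
    -(-1 : ℂ) ^ n + (-1) ^ n * ((1 / (((n : ℝ) + 5) * (((n : ℝ) + 5) ^ 2 + 1)) : ℝ) : ℂ) := by
  have h1 : ((n : ℂ) + 5) ≠ 0 := by
    have : ((n : ℂ) + 5) = (((n : ℝ) + 5 : ℝ) : ℂ) := by push_cast; ring
    rw [this, Ne, Complex.ofReal_eq_zero]; positivity
  have h2 : ((n : ℂ) + 5) ^ 2 + 1 ≠ 0 := by
    have : ((n : ℂ) + 5) ^ 2 + 1 = ((((n : ℝ) + 5) ^ 2 + 1 : ℝ) : ℂ) := by push_cast; ring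
    rw [this, Ne, Complex.ofReal_eq_zero]; positivity
  push_cast
  field_simp
  ring

/-! ## The theorem -/

theorem t_PATH : S_STAGE → S_PATH := by
  intro hS
  have hS' : ∀ n : ℕ, Link (W' n)⁻¹ (W (n + 1))⁻¹ 20 ((1 / 2 : ℝ) ^ (n + 1))
      (-(-1) ^ n * (1 - 1 / ((n : ℂ) + 5))) := fun n => hS n _ (by positivity)
  choose N Y h0 hN hne hstep hsum hend herr using hS'
  -- the stages with their large step
  set Z : ℕ → ℕ → ℂ := fun n i => Nat.casesOn i ((W n)⁻¹) (fun k => Y n k) with hZdef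
  set L : ℕ → ℕ := fun n => N n + 1 with hLdef
  have hZ0 : ∀ n, Z n 0 = (W n)⁻¹ := fun n => rfl
  have hZs : ∀ n k, Z n (k + 1) = Y n k := fun n k => rfl
  have hZ1 : ∀ n, Z n 1 = Y n 0 := fun n => rfl
  have hL : ∀ n, 0 < L n := fun n => Nat.succ_pos _
  have hZ : ∀ n, Z n (L n) = Z (n + 1) 0 := by
    intro n
    rw [hZ0, hLdef]
    exact hN n
  have hZne : ∀ n i, i < L n → Z n i ≠ 0 := by
    intro n i hi
    cases i with
    | zero => rw [hZ0]; exact inv_ne_zero (W_ne n)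
    | succ k => rw [hZs]; exact hne n k (by simp only [hLdef] at hi; omega)
  have hZstep : ∀ n i, i < L n → 16 * ‖Z n (i + 1) - Z n i‖ ≤ ‖Z n i‖ := by
    intro n i hi
    cases i with
    | zero =>
      rw [hZ0, hZs, h0, norm_step, norm_inv, norm_W]
      have h1 : (0 : ℝ) ≤ n := Nat.cast_nonneg n
      rw [← mul_div_assoc, div_le_iff₀ (by positivity), mul_comm]
      apply mul_le_mul_of_nonneg_left _ (by positivity)
      nlinarith
    | succ k => rw [hZs, hZs]; exact hstep n k (by simp only [hLdef] at hi; omega)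
  -- sums over a part of a stage
  have hpart : ∀ n k, chainSum (Z n) (k + 1) =
      -(-1) ^ n * (((n : ℂ) + 5) / (((n : ℂ) + 5) ^ 2 + 1)) + chainSum (Y n) k := by
    intro n k
    simp only [chainSum]
    rw [sum_range_succ', hZ0, zero_add, hZ1, h0, term_eq, add_comm]
  have hpartE : ∀ n k, chainErr (Z n) (k + 1) =
      ((n : ℝ) + 5) / (((n : ℝ) + 5) ^ 2 + 1) ^ 2 + chainErr (Y n) k := by
    intro n k
    simp only [chainErr]
    rw [sum_range_succ', hZ0, zero_add, hZ1, h0, norm_step, norm_inv, norm_W, add_comm]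
    congr 1
    field_simp
  have hr : ∀ n : ℕ, ‖-(-1 : ℂ) ^ n * (((n : ℂ) + 5) / (((n : ℂ) + 5) ^ 2 + 1))‖ ≤ 1 := by
    intro n
    have h1 : (((n : ℂ) + 5) / (((n : ℂ) + 5) ^ 2 + 1)) =
      ((((n : ℝ) + 5) / (((n : ℝ) + 5) ^ 2 + 1) : ℝ) : ℂ) := by push_cast; ring
    rw [norm_mul, norm_neg, norm_pow, norm_neg, norm_one, one_pow, one_mul, h1,
      Complex.norm_real, Real.norm_of_nonneg (by positivity)]
    have h2 : (0 : ℝ) ≤ n := Nat.cast_nonneg n
    rw [div_le_one (by positivity)]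
    nlinarith
  have hpartB : ∀ n i, i < L n → ‖chainSum (Z n) i‖ ≤ 21 := by
    intro n i hi
    cases i with
    | zero => simp [chainSum]
    | succ k =>
      rw [hpart]
      refine (norm_add_le _ _).trans ?_
      have := hsum n k (by simp only [hLdef] at hi; omega)
      have := hr n
      linarith
  -- sums over complete stages
  have hfull : ∀ n, ‖chainSum (Z n) (L n) - (-(-1 : ℂ) ^ n)‖ ≤
      1 / (((n : ℝ) + 4) * ((n : ℝ) + 5)) + (1 / 2 : ℝ) ^ (n + 1) := by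
    intro n
    have h1 : chainSum (Z n) (L n) - (-(-1 : ℂ) ^ n) =
        (-1) ^ n * ((1 / (((n : ℝ) + 5) * (((n : ℝ) + 5) ^ 2 + 1)) : ℝ) : ℂ) +
        (chainSum (Y n) (N n) - -(-1) ^ n * (1 - 1 / ((n : ℂ) + 5))) := by
      rw [hLdef]
      simp only
      rw [hpart]
      linear_combination mu_eq n
    rw [h1]
    refine (norm_add_le _ _).trans (add_le_add ?_ (hend n))
    rw [norm_mul, norm_pow, norm_neg, norm_one, one_pow, one_mul, Complex.norm_real,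
      Real.norm_of_nonneg (by positivity)]
    exact small1 n
  have hfullB : ∀ M : ℕ, ‖∑ n ∈ range M, chainSum (Z n) (L n)‖ ≤ 3 := by
    intro M
    have h1 : ∑ n ∈ range M, chainSum (Z n) (L n) = ∑ n ∈ range M, (-(-1 : ℂ) ^ n) +
        ∑ n ∈ range M, (chainSum (Z n) (L n) - (-(-1 : ℂ) ^ n)) := by
      rw [← sum_add_distrib]
      exact sum_congr rfl fun n _ => by ring
    have h2 : ‖∑ n ∈ range M, (chainSum (Z n) (L n) - (-(-1 : ℂ) ^ n))‖ ≤ 5 / 4 := by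
      refine (norm_sum_le _ _).trans ((sum_le_sum fun n _ => hfull n).trans ?_)
      rw [sum_add_distrib, tele, geo]
      have h3 : (0 : ℝ) ≤ 1 / ((M : ℝ) + 4) := by positivity
      have h4 : (0 : ℝ) ≤ (1 / 2 : ℝ) ^ M := by positivity
      linarith
    have h3 : ‖∑ n ∈ range M, (-(-1 : ℂ) ^ n)‖ ≤ 1 := by
      rcases alt M with h | h
      · rw [h]; simp
      · rw [h]; simp
    rw [h1]
    refine (norm_add_le _ _).trans ?_
    linarith
  have hfullE : ∀ M : ℕ, ∑ n ∈ range M, chainErr (Z n) (L n) ≤ 5 / 4 := by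
    intro M
    have h1 : ∀ n ∈ range M, chainErr (Z n) (L n) ≤
        1 / (((n : ℝ) + 4) * ((n : ℝ) + 5)) + (1 / 2 : ℝ) ^ (n + 1) := by
      intro n _
      rw [hLdef]
      simp only
      rw [hpartE]
      exact add_le_add (small2 n) (herr n)
    refine (sum_le_sum h1).trans ?_
    rw [sum_add_distrib, tele, geo]
    have h3 : (0 : ℝ) ≤ 1 / ((M : ℝ) + 4) := by positivity
    have h4 : (0 : ℝ) ≤ (1 / 2 : ℝ) ^ M := by positivity
    linarith
  have hEmono : ∀ (z : ℕ → ℂ) (i j : ℕ), i ≤ j → chainErr z i ≤ chainErr z j := by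
    intro z i j hij
    simp only [chainErr]
    exact sum_le_sum_of_subset_of_nonneg (range_subset_range.2 hij)
      fun _ _ _ => by positivity
  refine ⟨cat Z L, 30, fun j => hZne _ _ (st_lt L hL j), fun j => ?_, fun J => ?_, fun J => ?_,
    fun A => ?_⟩
  · rw [cat_succ Z L hL hZ]
    exact hZstep _ _ (st_lt L hL j)
  · have h1 := sum_cat (fun a b => conj a / a ^ 3 * (b - a)) Z L hL hZ J
    have h2 : chainSum (cat Z L) J = ∑ m ∈ range (st L J).1, chainSum (Z m) (L m) +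
        chainSum (Z (st L J).1) (st L J).2 := h1
    rw [h2]
    refine (norm_add_le _ _).trans ?_
    have h3 := hfullB (st L J).1
    have h4 := hpartB (st L J).1 (st L J).2 (st_lt L hL J)
    linarith
  · have h1 := sum_cat (fun a b => ‖b - a‖ ^ 2 / ‖a‖ ^ 3) Z L hL hZ J
    have h2 : chainErr (cat Z L) J = ∑ m ∈ range (st L J).1, chainErr (Z m) (L m) +
        chainErr (Z (st L J).1) (st L J).2 := h1
    rw [h2]
    have h3 := hfullE ((st L J).1 + 1)
    rw [sum_range_succ] at h3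
    have h4 := hEmono (Z (st L J).1) _ _ (st_lt L hL J).le
    linarith
  · obtain ⟨n, hn⟩ := exists_nat_ge (2 * A)
    obtain ⟨j, hj⟩ := st_stage L hL n
    refine ⟨j, ?_⟩
    rw [cat_succ Z L hL hZ, cat, hj]
    simp only
    rw [hZ0, hZs, h0, norm_step, norm_inv, norm_W]
    have h1 : (0 : ℝ) ≤ n := Nat.cast_nonneg n
    have h2 : ((n : ℝ) + 5)⁻¹ / (((n : ℝ) + 5) ^ 2 + 1) / ((n : ℝ) + 5)⁻¹ ^ 4 =
        ((n : ℝ) + 5) ^ 3 / (((n : ℝ) + 5) ^ 2 + 1) := by
      field_simp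
    rw [h2, le_div_iff₀ (by positivity)]
    have h3 : A ≤ ((n : ℝ) + 5) / 2 := by linarith
    have h4 : 0 ≤ ((n : ℝ) + 5) ^ 2 + 1 := by positivity
    nlinarith [mul_le_mul_of_nonneg_right h3 h4, mul_nonneg h1 h1,
      mul_nonneg (mul_nonneg h1 h1) h1]

end Pool.Agent.U928.BX.PATH
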